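import Mathlib
import Pool.Agent.H304R4.CM.Signs

set_option autoImplicit false

open Complex MeasureTheory Filter Topology Asymptotics

namespace Pool.Agent.Results.MP_91b7ff_nt.CubicSigns

/-- the third moment is equally distributed over the two signs of Hardy's function, with a
power saving -/
theorem result :
    (∃ Z : ℝ → ℝ, ∀ t : ℝ, (Z t : ℂ) = (Real.pi : ℂ) ^ (-(I * t / 2)) *
      (Complex.Gamma (1 / 4 + I * t / 2) / (‖Complex.Gamma (1 / 4 + I * t / 2)‖ : ℂ)) *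
      riemannZeta (1 / 2 + I * t)) ∧
    ∃ c : ℝ, 0 < c ∧ c < 1 ∧ ∀ Z : ℝ → ℝ, (∀ t : ℝ, (Z t : ℂ) = (Real.pi : ℂ) ^ (-(I * t / 2)) *
      (Complex.Gamma (1 / 4 + I * t / 2) / (‖Complex.Gamma (1 / 4 + I * t / 2)‖ : ℂ)) *
      riemannZeta (1 / 2 + I * t)) →
      ((fun T : ℝ => (∫ t in (0 : ℝ)..T, max (Z t) 0 ^ 3) -
        (∫ t in (0 : ℝ)..T, ‖riemannZeta (1 / 2 + I * t)‖ ^ 3) / 2) =O[atTop]
        (fun T : ℝ => T ^ c)) ∧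
      ((fun T : ℝ => (∫ t in (0 : ℝ)..T, max (-Z t) 0 ^ 3) -
        (∫ t in (0 : ℝ)..T, ‖riemannZeta (1 / 2 + I * t)‖ ^ 3) / 2) =O[atTop]
        (fun T : ℝ => T ^ c)) ∧
      ∀ a : ℝ,
        (Tendsto (fun T : ℝ => (∫ t in (0 : ℝ)..T, ‖riemannZeta (1 / 2 + I * t)‖ ^ 3) /
          (T * (Real.log T) ^ (9 / 4 : ℝ))) atTop (𝓝 a) ↔
        Tendsto (fun T : ℝ => (∫ t in (0 : ℝ)..T, max (Z t) 0 ^ 3) /
          (T * (Real.log T) ^ (9 / 4 : ℝ))) atTop (𝓝 (a / 2))) ∧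
        (Tendsto (fun T : ℝ => (∫ t in (0 : ℝ)..T, ‖riemannZeta (1 / 2 + I * t)‖ ^ 3) /
          (T * (Real.log T) ^ (9 / 4 : ℝ))) atTop (𝓝 a) ↔
        Tendsto (fun T : ℝ => (∫ t in (0 : ℝ)..T, max (-Z t) 0 ^ 3) /
          (T * (Real.log T) ^ (9 / 4 : ℝ))) atTop (𝓝 (a / 2))) :=
  Pool.Agent.H304R4.CM.signs_final

end Pool.Agent.Results.MP_91b7ff_nt.CubicSigns
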