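import Pool.Agent.H306R2.LargeK

set_option autoImplicit false

/-!
Unconditional lower bounds for high odd moments of zeta on the critical line.
-/

open Filter

theorem Pool.Agent.Results.MP_91b7ff_nt.LargeOddMoments.result (A : ℝ) (hA : 0 < A)
    (hA4 : A < 4 / Real.exp 1) :
    ∃ K : ℕ, ∀ k : ℕ, K ≤ k → Odd k → ∀ᶠ T : ℝ in atTop,
      A ^ ((k : ℝ) ^ 2 / 4) * (∏' p : Nat.Primes, ((1 - 1 / (p : ℝ)) ^ ((k : ℝ) ^ 2 / 4) *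
          ∑' m : ℕ, (∏ i ∈ Finset.range m, ((k : ℝ) / 2 + i) / ((i : ℝ) + 1)) ^ 2 *
            (1 / (p : ℝ)) ^ m)) / Real.Gamma ((k : ℝ) ^ 2 / 4 + 1) *
        (T * Real.log T ^ ((k : ℝ) ^ 2 / 4)) ≤
      ∫ t in (0:ℝ)..T, ‖riemannZeta (1 / 2 + t * Complex.I)‖ ^ k := by
  obtain ⟨K, hK⟩ := Pool.Agent.H306R2.large_k A hA hA4
  refine ⟨K, fun k hk _ => ?_⟩
  have h := hK k hk
  have e : Pool.Agent.H306R2.aF ((k : ℝ) / 2) =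
      ∏' p : Nat.Primes, ((1 - 1 / (p : ℝ)) ^ ((k : ℝ) ^ 2 / 4) *
          ∑' m : ℕ, (∏ i ∈ Finset.range m, ((k : ℝ) / 2 + i) / ((i : ℝ) + 1)) ^ 2 *
            (1 / (p : ℝ)) ^ m) := by
    unfold Pool.Agent.H306R2.aF Pool.Agent.H306R2.lc
    rw [show ((k : ℝ) / 2) ^ 2 = (k : ℝ) ^ 2 / 4 by ring]
  rwa [e] at h
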