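import Pool.Agent.H306R2.Main
import Pool.Agent.H306R2.X379ConstA

set_option autoImplicit false

/-!
Unconditional explicit lower bounds for all odd moments of zeta on the critical line.
-/

open Filter

theorem Pool.Agent.Results.MP_91b7ff_nt.OddMoments.result (k : ℕ) (hk : Odd k) (h3 : 3 ≤ k) :
    ∀ᶠ T : ℝ in atTop,
      7 / 10 * (∏' p : Nat.Primes, ((1 - 1 / (p : ℝ)) ^ ((k : ℝ) ^ 2 / 4) *
          ∑' m : ℕ, (∏ i ∈ Finset.range m, ((k : ℝ) / 2 + i) / ((i : ℝ) + 1)) ^ 2 *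
            (1 / (p : ℝ)) ^ m)) / Real.Gamma ((k : ℝ) ^ 2 / 4 + 1) *
        (T * Real.log T ^ ((k : ℝ) ^ 2 / 4)) ≤
      ∫ t in (0:ℝ)..T, ‖riemannZeta (1 / 2 + t * Complex.I)‖ ^ k := by
  obtain ⟨n, j, q, β, hadm, hc⟩ := Pool.Agent.H306R2.X379ConstA.constA k hk h3
  have hk0 : (0:ℝ) < k := by exact_mod_cast (by omega : 0 < k)
  have haF : 0 < Pool.Agent.H306R2.aF ((k : ℝ) / 2) := Pool.Agent.H306R2.aF_pos (by positivity)
  have e : Pool.Agent.H306R2.aF ((k : ℝ) / 2) =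
      ∏' p : Nat.Primes, ((1 - 1 / (p : ℝ)) ^ ((k : ℝ) ^ 2 / 4) *
          ∑' m : ℕ, (∏ i ∈ Finset.range m, ((k : ℝ) / 2 + i) / ((i : ℝ) + 1)) ^ 2 *
            (1 / (p : ℝ)) ^ m) := by
    unfold Pool.Agent.H306R2.aF Pool.Agent.H306R2.lc
    rw [show ((k : ℝ) / 2) ^ 2 = (k : ℝ) ^ 2 / 4 by ring]
  rw [← e]
  refine Pool.Agent.H306R2.master k j (by omega) q β hadm _ ?_
  calc 7 / 10 * Pool.Agent.H306R2.aF ((k : ℝ) / 2) / Real.Gamma ((k : ℝ) ^ 2 / 4 + 1)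
      = Pool.Agent.H306R2.aF ((k : ℝ) / 2) * ((7 / 10) / Real.Gamma ((k : ℝ) ^ 2 / 4 + 1)) := by ring
    _ < _ := by gcongr
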