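import Pool.Agent.H176RZ.Sixth
import Pool.Agent.H176RZ.Eighth

set_option autoImplicit false

/-!
MP_91b7ff_nt, exponents `k = 6` and `k = 8`: unconditional lower bounds for the increments
`M_k(T + H) - M_k(T)`, `M_k(T) = ∫_0^T |ζ(1/2+it)|^k dt`, for all `H` with
`T / (log T)^α ≤ H ≤ T`, for every `α < 1/2`.
-/

namespace Pool.Agent.Results.MP_91b7ff_nt.WindowsSixEight

open Filter MeasureTheory

/-- `M_k(T) = ∫_0^T |ζ(1/2+it)|^k dt` -/
noncomputable def M (k : ℕ) (T : ℝ) : ℝ :=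
  ∫ t in (0 : ℝ)..T, ‖riemannZeta (1 / 2 + t * Complex.I)‖ ^ k

theorem M_sub (k : ℕ) (T H : ℝ) : M k (T + H) - M k T =
    ∫ t in T..(T + H), ‖riemannZeta (1 / 2 + t * Complex.I)‖ ^ k := by
  have hc : Continuous (fun t : ℝ => ‖riemannZeta (1 / 2 + t * Complex.I)‖ ^ k) :=
    (Pool.Agent.H306R2.zeta_line_continuous.norm).pow k
  unfold M
  rw [intervalIntegral.integral_interval_sub_left (hc.intervalIntegrable _ _)
    (hc.intervalIntegrable _ _)]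

theorem result (α : ℝ) (h0 : 0 ≤ α) (h1 : α < 1 / 2) :
    ∀ᶠ T : ℝ in atTop, ∀ H : ℝ, T / Real.log T ^ α ≤ H → H ≤ T →
      34.4 * (∏' p : Nat.Primes, ((1 - 1 / (p : ℝ)) ^ 9 *
          ∑' m : ℕ, ((m + 2).choose 2 : ℝ) ^ 2 * (1 / (p : ℝ)) ^ m)) / (Nat.factorial 9 : ℝ) *
        (H * Real.log T ^ (6 ^ 2 / 4)) ≤ M 6 (T + H) - M 6 T ∧
      779 * (∏' p : Nat.Primes, ((1 - 1 / (p : ℝ)) ^ 16 *
          ∑' m : ℕ, ((m + 3).choose 3 : ℝ) ^ 2 * (1 / (p : ℝ)) ^ m)) / (Nat.factorial 16 : ℝ) *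
        (H * Real.log T ^ (8 ^ 2 / 4)) ≤ M 8 (T + H) - M 8 T := by
  have e4 : Pool.Agent.H306R2.aF 4 = ∏' p : Nat.Primes, ((1 - 1 / (p : ℝ)) ^ 16 *
      ∑' m : ℕ, ((m + 3).choose 3 : ℝ) ^ 2 * (1 / (p : ℝ)) ^ m) := by
    have e := Pool.Agent.H306R2.aF_nat 4 (by norm_num)
    have e3 : ((4 : ℕ) : ℝ) = 4 := by norm_num
    rw [e3] at e
    rw [e]
    refine tprod_congr fun p => ?_
    congr 1
    refine tsum_congr fun m => ?_
    congr 3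
    rw [show m + 4 - 1 = m + 3 by omega, ← Nat.choose_symm (by omega : 3 ≤ m + 3)]
    congr 1
  filter_upwards [Pool.Agent.H176RZ.sixth_short_aux α h0 h1,
    Pool.Agent.H176RZ.eighth_short_aux α h0 h1] with T h6 h8 H hH1 hH2
  have a := h6 H hH1 hH2
  have b := h8 H hH1 hH2
  rw [Pool.Agent.H601R2.SixthLocal.aF3] at a
  rw [e4] at b
  rw [M_sub, M_sub]
  refine ⟨le_trans (le_of_eq ?_) a, le_trans (le_of_eq ?_) b⟩
  · norm_num; ring
  · norm_num; ring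

end Pool.Agent.Results.MP_91b7ff_nt.WindowsSixEight
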